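import Pool.Agent.H367R3.GSRamsey

set_option autoImplicit false

namespace Pool.Agent.Results.MP_763321_co.NoInducedHalfGraph

open Pool.Agent.H367R3

/-- For every forest `F` and every `n`, the class of finite graphs with no induced copy of `F` and
no induced copy of the half-graph `H_n` is `χ`-bounded. -/
theorem result :
    ∀ (m : ℕ) (F : SimpleGraph (Fin m)), F.IsAcyclic → ∀ n : ℕ,
      ∃ f : ℕ → ℕ, ∀ (V : Type) [Finite V] (G : SimpleGraph V),
        ¬ Nonempty (F ↪g G) → ¬ Nonempty (halfGraph n ↪g G) →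
          G.chromaticNumber ≤ f G.cliqueNum := by
  intro m F hF n
  obtain ⟨f, hf⟩ := gyarfas_sumner_induced_halfGraph.{0} n m F hF
  exact ⟨f, fun V _ G hFG hHG => hf V G hHG hFG⟩

end Pool.Agent.Results.MP_763321_co.NoInducedHalfGraph
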